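import Pool.Agent.Lib.MP_acafa7_al.F.IfaceC
import Pool.Agent.Lib.MP_acafa7_al.MS.H64.Wk

/-! Proposition 5.1 of PaperF.md: almost fixed points exist. -/

namespace MSG.F06

open Classical

variable {V : Type} {G : SimpleGraph V} {B : Type} [Group B] [MulAction B V]

theorem dsm (hc : G.Connected) (ha : Aut G B) (b : B) (x y : V) :
    G.dist (b • x) (b • y) = G.dist x y :=
  H64.dist_aut hc (MulAction.toPerm b) (fun x y => ha b x y) x y

theorem wsm (ha : Aut G B) (b : B) {x y : V} {l : List V} (h : IsW G x y l) :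
    IsW G (b • x) (b • y) (l.map (b • ·)) :=
  H64.B.isW_map (MulAction.toPerm b) (fun x y => ha b x y) h

theorem cat_len (l m : List V) : (cat l m).length ≤ l.length + m.length := by
  unfold cat
  rw [List.length_append, List.length_tail]
  omega

theorem catN_wk (ha : Aut G B) {z : B} {x : V} {γ : List V} (hγ : IsW G x (z • x) γ) (n : ℕ) :
    IsW G x (z ^ n • x) (catN (fun i => γ.map (z ^ i • ·)) x n) ∧
      (catN (fun i => γ.map (z ^ i • ·)) x n).length ≤ 1 + n * γ.length := by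
  induction n with
  | zero =>
    refine ⟨?_, ?_⟩
    · rw [pow_zero, one_smul]
      exact H64.B.isW_one x
    · simp [catN]
  | succ n ih =>
    have h1 : IsW G (z ^ n • x) (z ^ (n + 1) • x) (γ.map (z ^ n • ·)) := by
      have := wsm ha (z ^ n) hγ
      rwa [smul_smul, ← pow_succ] at this
    refine ⟨H64.B.isW_cat ih.1 h1, ?_⟩
    have h2 := cat_len (catN (fun i => γ.map (z ^ i • ·)) x n) (γ.map (z ^ n • ·))
    rw [List.length_map] at h2
    refine h2.trans ?_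
    have h3 := ih.2
    rw [Nat.succ_mul]
    omega

theorem dist_pow (hc : G.Connected) (ha : Aut G B) {h : B} {x : V} {δ : ℕ}
    (h1 : G.dist x (h • x) ≤ δ) (i : ℕ) : G.dist x (h ^ i • x) ≤ i * δ := by
  induction i with
  | zero => rw [pow_zero, one_smul, SimpleGraph.dist_self]; omega
  | succ n ih =>
    have h2 : G.dist x (h ^ (n + 1) • x) ≤ G.dist x (h ^ n • x) +
        G.dist (h ^ n • x) (h ^ (n + 1) • x) := hc.dist_triangle
    have h3 : G.dist (h ^ n • x) (h ^ (n + 1) • x) ≤ δ := by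
      rw [pow_succ, ← smul_smul, dsm hc ha]
      exact h1
    rw [Nat.succ_mul]
    omega

theorem disp (hc : G.Connected) (ha : Aut G B) {p : ℕ} [Fact p.Prime]
    (hcomm : ∀ a b : B, a * b = b * a) {B' : Subgroup B} (hi : B'.index = p) {h : B} (hh : h ∉ B')
    {x : V} {δ c₀ : ℕ} (h1 : G.dist x (h • x) ≤ δ) (h2 : ∀ b ∈ B', G.dist x (b • x) ≤ c₀) (b : B) :
    G.dist x (b • x) ≤ p * δ + c₀ := by
  have hN : B'.Normal := ⟨fun n hn g => by rw [hcomm g n, mul_inv_cancel_right]; exact hn⟩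
  have hcard : Nat.card (B ⧸ B') = p := hi
  have hp : p ≠ 0 := (Fact.out : p.Prime).ne_zero
  have : Finite (B ⧸ B') := Nat.finite_of_card_ne_zero (by rw [hcard]; exact hp)
  have hne : (h : B ⧸ B') ≠ 1 := by
    rw [Ne, QuotientGroup.eq_one_iff]
    exact hh
  have htop := zpowers_eq_top_of_prime_card hcard hne
  have hmem : (b : B ⧸ B') ∈ Subgroup.zpowers (h : B ⧸ B') := by rw [htop]; trivial
  rw [mem_zpowers_iff_mem_range_orderOf, Finset.mem_image] at hmem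
  obtain ⟨i, hi1, hi2⟩ := hmem
  rw [Finset.mem_range] at hi1
  have hi3 : i ≤ p := by
    have := orderOf_le_card (x := (h : B ⧸ B'))
    omega
  have hq : ((h ^ i : B) : B ⧸ B') = (b : B ⧸ B') := hi2
  rw [QuotientGroup.eq] at hq
  have e : b = h ^ i * ((h ^ i)⁻¹ * b) := by rw [mul_inv_cancel_left]
  have h3 : G.dist x (b • x) ≤ G.dist x (h ^ i • x) + G.dist (h ^ i • x) (b • x) :=
    hc.dist_triangle
  have h4 : G.dist (h ^ i • x) (b • x) ≤ c₀ := by
    rw [e, ← smul_smul, dsm hc ha]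
    exact h2 _ hq
  have h5 := dist_pow hc ha h1 i
  have h6 : i * δ ≤ p * δ := Nat.mul_le_mul_right _ hi3
  omega

theorem exists_r (N : ℕ) : ∃ r, 10 ≤ r ∧ 40 * N ≤ r ^ 3 ∧ r ^ 3 ≤ 1000 + 320 * N := by
  have hex : ∃ r, 10 ≤ r ∧ 40 * N ≤ r ^ 3 := by
    refine ⟨10 + 40 * N, by omega, ?_⟩
    have h1 : 10 + 40 * N ≤ (10 + 40 * N) ^ 3 := Nat.le_self_pow (by norm_num) _
    omega
  obtain ⟨h1, h2⟩ := Nat.find_spec hex
  refine ⟨Nat.find hex, h1, h2, ?_⟩
  set r := Nat.find hex with hr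
  by_cases h10 : r = 10
  · rw [h10]; omega
  · have h3 : ¬ (10 ≤ r - 1 ∧ 40 * N ≤ (r - 1) ^ 3) := Nat.find_min hex (by omega)
    have h4 : (r - 1) ^ 3 < 40 * N := by
      by_contra h5
      exact h3 ⟨by omega, by omega⟩
    have h6 : r ^ 3 ≤ (2 * (r - 1)) ^ 3 := Nat.pow_le_pow_left (by omega) 3
    rw [mul_pow] at h6
    omega

/-- the distance from the origin of the points of a filling set -/
theorem fil_near (hc : G.Connected) {x y : V} {l l' : List V} {C : ℕ} {S : Finset V}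
    (hl : IsW G x y l) (hl' : IsW G x y l') (h : Fil2 G C l l' S) {q : V} (hq : q ∈ S) :
    G.dist x q ≤ (C + 1) * (l.length + l'.length) := by
  obtain ⟨v, hv, hd⟩ := h.near q hq
  have h1 : G.dist x v ≤ l.length + l'.length := by
    rw [List.mem_append] at hv
    rcases hv with hv | hv
    · have := H64.dist_mem_lt hl hv; omega
    · have := H64.dist_mem_lt hl' hv; omega
  have h2 : G.dist x q ≤ G.dist x v + G.dist v q := hc.dist_triangle
  rw [SimpleGraph.dist_comm (u := v) (v := q)] at h2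
  rw [Nat.succ_mul]
  omega

theorem final_bd {m M r N CS K CB : ℕ} (hK : 1 ≤ K) (h1 : m ≤ M * r)
    (h2 : r ^ 3 ≤ 1000 + 320 * N) (h3 : N ≤ CS * K ^ 2) (h4 : M ^ 3 * (1000 + 320 * CS) ≤ CB) :
    m ^ 3 ≤ CB * K ^ 2 := by
  have hK2 : 1 ≤ K ^ 2 := Nat.one_le_pow _ _ hK
  calc m ^ 3 ≤ (M * r) ^ 3 := Nat.pow_le_pow_left h1 3
    _ = M ^ 3 * r ^ 3 := mul_pow _ _ _
    _ ≤ M ^ 3 * ((1000 + 320 * CS) * K ^ 2) := by
        refine Nat.mul_le_mul_left _ ?_
        have h5 : 320 * N ≤ 320 * (CS * K ^ 2) := Nat.mul_le_mul_left _ h3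
        have h6 : 1000 * 1 ≤ 1000 * K ^ 2 := Nat.mul_le_mul_left _ hK2
        calc r ^ 3 ≤ 1000 + 320 * N := h2
          _ ≤ 1000 * K ^ 2 + 320 * (CS * K ^ 2) := by omega
          _ = (1000 + 320 * CS) * K ^ 2 := by ring
    _ = M ^ 3 * (1000 + 320 * CS) * K ^ 2 := by ring
    _ ≤ CB * K ^ 2 := Nat.mul_le_mul_right _ h4

theorem prope_st (hTK : TkStatement) (hCM : CMap1Statement) (hCRN : CrnStatement)
    (hIDE : IdeStatement) (hENG : EngEStatement) : PropEStatement := by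
  intro V G C hH p hp B _ _ _ ha hcomm hpg B' z hi hz c₀
  have hc := hH.conn
  obtain ⟨R, n, hcrn⟩ := hCRN V G C hH B ha B' c₀
  have hN : B'.Normal := ⟨fun n hn g => by rw [hcomm g n, mul_inv_cancel_right]; exact hn⟩
  have hzp : z ^ p ∈ B' := by
    have := Subgroup.pow_index_mem B' z
    rwa [hi] at this
  have hp1 : 1 ≤ p := (Fact.out : p.Prime).one_lt.le
  have hrB : ∀ r, 10 ≤ r → rB B r ≤ (2 + 3 * Fintype.card B) * r := by
    intro r hr
    unfold rB
    have h1 : Fintype.card B * (2 * r + 1) ≤ Fintype.card B * (3 * r) :=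
      Nat.mul_le_mul_left _ (by omega)
    calc 2 * r + Fintype.card B * (2 * r + 1) ≤ 2 * r + Fintype.card B * (3 * r) := by omega
      _ = (2 + 3 * Fintype.card B) * r := by ring
  obtain ⟨q, hq⟩ : ∃ q, q = Fintype.card B := ⟨_, rfl⟩
  obtain ⟨a₁, ha₁⟩ : ∃ a₁, a₁ = 2 * c₀ + 6 := ⟨_, rfl⟩
  obtain ⟨a₂, ha₂⟩ : ∃ a₂, a₂ = 2 * p + c₀ + 2 := ⟨_, rfl⟩
  obtain ⟨CS, hCS⟩ : ∃ CS, CS = q * (n + C * a₂ ^ 2 + q * (C * a₁ ^ 2)) := ⟨_, rfl⟩
  obtain ⟨M, hM⟩ : ∃ M, M = p * (2 * R + 1) + c₀ + 2 * p * (2 + 3 * q) + (2 + 3 * q) := ⟨_, rfl⟩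
  obtain ⟨CB, hCB⟩ : ∃ CB, CB = (C + 1) * (a₁ + a₂) + R + p + c₀ + M ^ 3 * (1000 + 320 * CS) :=
    ⟨_, rfl⟩
  refine ⟨CB, ?_⟩
  intro x K hK hx hzx
  obtain ⟨al, U₀, hxU, hUc, hUinv, hUR, hal, halh⟩ := hcrn x hx
  obtain ⟨γ, hγ, hγl⟩ := H64.exists_geod hc x (z • x)
  have hw1 : ∀ b ∈ B', IsW G x (z • b • x) (cat γ ((al b).map (z • ·))) := fun b hb =>
    H64.B.isW_cat hγ (wsm ha z (hal b hb).1)
  have hw2 : ∀ b ∈ B', IsW G x (z • b • x) (cat (al b) (γ.map (b • ·))) := by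
    intro b hb
    have h1 := H64.B.isW_cat (hal b hb).1 (wsm ha b hγ)
    rwa [smul_smul, hcomm b z, ← smul_smul] at h1
  have hlen : ∀ b ∈ B', (cat γ ((al b).map (z • ·))).length + (cat (al b) (γ.map (b • ·))).length ≤
      a₁ * K := by
    intro b hb
    have h1 := cat_len γ ((al b).map (z • ·))
    have h2 := cat_len (al b) (γ.map (b • ·))
    rw [List.length_map] at h1 h2
    have h3 := (hal b hb).2.1
    have h4 : (2 * c₀ + 4) * 1 ≤ (2 * c₀ + 4) * K := Nat.mul_le_mul_left _ hK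
    have h5 : a₁ * K = (2 * c₀ + 4) * K + 2 * K := by rw [ha₁]; ring
    omega
  have hsq : ∀ b : B, ∃ S : Finset V, b ∈ B' →
      Fil2 G C (cat γ ((al b).map (z • ·))) (cat (al b) (γ.map (b • ·))) S := by
    intro b
    by_cases hb : b ∈ B'
    · obtain ⟨S, hS⟩ := hH.geo x (z • b • x) _ _ (hw1 b hb) (hw2 b hb)
      exact ⟨S, fun _ => hS⟩
    · exact ⟨∅, fun h => absurd h hb⟩
  choose W hW using hsq
  have hwm := catN_wk ha hγ p
  obtain ⟨Wm, hWm⟩ := hH.geo x (z ^ p • x) _ _ hwm.1 (hal (z ^ p) hzp).1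
  have hlenm : (catN (fun i => γ.map (z ^ i • ·)) x p).length + (al (z ^ p)).length ≤ a₂ * K := by
    have h3 := (hal (z ^ p) hzp).2.1
    have h4 : (c₀ + 2) * 1 ≤ (c₀ + 2) * K := Nat.mul_le_mul_left _ hK
    have h5 : a₂ * K = p * (2 * K) + (c₀ + 2) * K := by rw [ha₂]; ring
    have h6 : p * γ.length ≤ p * (2 * K) := Nat.mul_le_mul_left _ (by omega)
    have h7 := hwm.2
    omega
  obtain ⟨S₀, hS₀⟩ : ∃ S₀ : Finset V, S₀ = U₀ ∪ Wm ∪
      (Finset.univ.filter (fun b => b ∈ B')).biUnion W := ⟨_, rfl⟩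
  obtain ⟨S, hS⟩ : ∃ S : Finset V, S = Finset.univ.biUnion (fun b : B => S₀.image (b • ·)) :=
    ⟨_, rfl⟩
  have hmem : ∀ v, v ∈ S ↔ ∃ b : B, ∃ s ∈ S₀, b • s = v := by
    intro v
    rw [hS, Finset.mem_biUnion]
    constructor
    · rintro ⟨b, _, hb⟩
      rw [Finset.mem_image] at hb
      obtain ⟨s, hs, e⟩ := hb
      exact ⟨b, s, hs, e⟩
    · rintro ⟨b, s, hs, e⟩
      exact ⟨b, Finset.mem_univ _, Finset.mem_image.2 ⟨s, hs, e⟩⟩
  have hsub : S₀ ⊆ S := fun v hv => (hmem v).2 ⟨1, v, hv, one_smul _ _⟩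
  have hinv : ∀ (b : B), ∀ v ∈ S, b • v ∈ S := by
    intro b v hv
    obtain ⟨g, s, hs, rfl⟩ := (hmem v).1 hv
    exact (hmem _).2 ⟨b * g, s, hs, by rw [smul_smul]⟩
  have hU₀S : U₀ ⊆ S₀ := by
    rw [hS₀]
    intro v hv
    simp only [Finset.mem_union]
    exact Or.inl (Or.inl hv)
  have hWmS : Wm ⊆ S₀ := by
    rw [hS₀]
    intro v hv
    simp only [Finset.mem_union]
    exact Or.inl (Or.inr hv)
  have hWS : ∀ b ∈ B', W b ⊆ S₀ := by
    rw [hS₀]
    intro b hb v hv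
    simp only [Finset.mem_union]
    refine Or.inr ?_
    rw [Finset.mem_biUnion]
    exact ⟨b, Finset.mem_filter.2 ⟨Finset.mem_univ _, hb⟩, hv⟩
  have hcardW : ∀ b ∈ B', (W b).card ≤ C * a₁ ^ 2 * K ^ 2 := by
    intro b hb
    refine (hW b hb).card.trans ?_
    rw [mul_assoc, ← mul_pow]
    exact Nat.mul_le_mul_left _ (Nat.pow_le_pow_left (hlen b hb) 2)
  have hcardWm : Wm.card ≤ C * a₂ ^ 2 * K ^ 2 := by
    refine hWm.card.trans ?_
    rw [mul_assoc, ← mul_pow]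
    exact Nat.mul_le_mul_left _ (Nat.pow_le_pow_left hlenm 2)
  have hK2 : 1 ≤ K ^ 2 := Nat.one_le_pow _ _ hK
  have hcard₀ : S₀.card ≤ (n + C * a₂ ^ 2 + q * (C * a₁ ^ 2)) * K ^ 2 := by
    have h1 : ((Finset.univ.filter (fun b => b ∈ B')).biUnion W).card ≤
        q * (C * a₁ ^ 2 * K ^ 2) := by
      refine (Finset.card_biUnion_le_card_mul _ _ (C * a₁ ^ 2 * K ^ 2) ?_).trans ?_
      · intro b hb
        exact hcardW b (Finset.mem_filter.1 hb).2
      · refine Nat.mul_le_mul_right _ ?_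
        rw [hq]
        exact (Finset.card_filter_le _ _).trans (le_of_eq Finset.card_univ)
    have h2 : S₀.card ≤ U₀.card + Wm.card +
        ((Finset.univ.filter (fun b => b ∈ B')).biUnion W).card := by
      rw [hS₀]
      refine (Finset.card_union_le _ _).trans ?_
      have := Finset.card_union_le U₀ Wm
      omega
    have h3 : n * 1 ≤ n * K ^ 2 := Nat.mul_le_mul_left _ hK2
    calc S₀.card ≤ n * K ^ 2 + C * a₂ ^ 2 * K ^ 2 + q * (C * a₁ ^ 2 * K ^ 2) := by omega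
      _ = (n + C * a₂ ^ 2 + q * (C * a₁ ^ 2)) * K ^ 2 := by ring
  have hcard : S.card ≤ CS * K ^ 2 := by
    rw [hS, hCS, mul_assoc]
    refine (Finset.card_biUnion_le_card_mul _ _
      ((n + C * a₂ ^ 2 + q * (C * a₁ ^ 2)) * K ^ 2) ?_).trans (le_of_eq ?_)
    · intro b _
      exact Finset.card_image_le.trans hcard₀
    · rw [Finset.card_univ, ← hq]
  obtain ⟨r, hr10, hr1, hr2⟩ := exists_r S.card
  have hCBM : M ^ 3 * (1000 + 320 * CS) ≤ CB := by rw [hCB]; omega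
  have hr' := hrB r hr10
  rw [← hq] at hr'
  obtain ⟨U, hU⟩ : ∃ U : B ⧸ B' → Set V, U = fun i =>
      {v | ∃ g : B, (g : B ⧸ B') = i ∧ ∃ w ∈ U₀, v = g • w} := ⟨_, rfl⟩
  have hUm : ∀ i v, v ∈ U i ↔ ∃ g : B, (g : B ⧸ B') = i ∧ ∃ w ∈ U₀, v = g • w := by
    intro i v
    rw [hU]
    rfl
  by_cases hfar : ∀ i j : B ⧸ B', i ≠ j → ∀ y ∈ U i, ∀ y' ∈ U j, 2 * rB B r + 1 < G.dist y y'
  · -- the coarse map
    have hSne : S.Nonempty := ⟨x, hsub (hU₀S hxU)⟩
    have hUS : ∀ i, (U i).Nonempty ∧ U i ⊆ S := by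
      intro i
      constructor
      · obtain ⟨g, hg⟩ := QuotientGroup.mk_surjective i
        exact ⟨g • x, (hUm _ _).2 ⟨g, hg, x, hxU, rfl⟩⟩
      · intro v hv
        obtain ⟨g, _, w, hw, rfl⟩ := (hUm _ _).1 hv
        exact hinv g w (hsub (hU₀S hw))
    have hUi : ∀ (b : B) i v, v ∈ U i → b • v ∈ U (b • i) := by
      intro b i v hv
      obtain ⟨g, rfl, w, hw, rfl⟩ := (hUm _ _).1 hv
      exact (hUm _ _).2 ⟨b * g, rfl, w, hw, by rw [smul_smul]⟩
    obtain ⟨Y, hYf, hYa, π, c, u, hcm, hpu, hub, huinj, hsurj, hfibU, hfib⟩ :=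
      hCM V G hc B ha S r (B ⧸ B') U hSne hinv hr10 hr1 hUS hUi hfar
    have hT : Tk G B (S : Set V) π c := hTK V G C hH B ha S Y π c hcm
    have hU1 : ∀ v ∈ U₀, π v = u ((1 : B) : B ⧸ B') := by
      intro v hv
      exact hpu _ v ((hUm _ _).2 ⟨1, rfl, v, hv, (one_smul _ _).symm⟩)
    have hcor : Corner G B' x al (U₀ : Set V) :=
      ⟨fun b hb => (hal b hb).1, fun b hb v hv => (hal b hb).2.2 v hv, hUinv, halh⟩
    have hγS : ∀ v ∈ γ, v ∈ (S : Set V) := by
      intro v hv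
      have h1 : v ∈ W 1 := (hW 1 B'.one_mem).mem v
        (List.mem_append_left _ (H64.B.cat_mem_left hv))
      exact hsub (hWS 1 B'.one_mem h1)
    obtain ⟨D, Dm, hD1, hD2, hD3, hD4, hD5, hD6, hD7⟩ := hIDE V G B ha hcomm (S : Set V) Y π c hcm hT
      B' z p x γ al (U₀ : Set V) (fun b => (W b : Set V)) (Wm : Set V) hp1 hzp hγ hγS hcor
      (fun v hv => hsub (hU₀S hv)) (fun v hv w hw => by rw [hU1 v hv, hU1 w hw])
      (fun b hb => ⟨fun v hv => hsub (hWS b hb hv),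
        fun v hv => (hW b hb).mem v (List.mem_append_left _ hv), (hW b hb).hom⟩)
      (fun v hv => hsub (hWmS hv)) (fun v hv => hWm.mem v (List.mem_append_left _ hv)) hWm.hom
    have hxS : x ∈ (S : Set V) := hsub (hU₀S hxU)
    have hbd := hT.bde x (z • x) γ hγ hγS
    obtain ⟨v, hv⟩ := hENG p B Y c hcomm hpg hcm.col B' z hi hz (edw π c γ) D Dm (π x) hbd.1 hD1 hD2
      hD3 hD4 (by rw [hbd.2, hcm.eqv z x hxS])
      (fun b hb => by rw [← hcm.eqv b x hxS, hU1 x hxU, hU1 (b • x) (hUinv b hb x hxU)])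
      hD5 hD6 hD7
    have hvu : ∀ i, v ≠ u i := by
      intro i e
      have h1 := hv z
      rw [e, hub] at h1
      have h2 := huinj _ _ h1
      obtain ⟨g, rfl⟩ := QuotientGroup.mk_surjective i
      have h3 : ((z * g : B) : B ⧸ B') = (g : B ⧸ B') := h2
      rw [QuotientGroup.eq] at h3
      apply hz
      have h4 : (z * g)⁻¹ * g = z⁻¹ := by
        rw [hcomm z g, mul_inv_rev, inv_mul_cancel_right]
      rw [h4] at h3
      exact (B'.inv_mem_iff).1 h3
    obtain ⟨w, hwS, hwv⟩ := hsurj v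
    refine ⟨w, ?_, rB B r, ?_, ?_⟩
    · obtain ⟨b, s, hs, rfl⟩ := (hmem w).1 hwS
      have h1 : G.dist x (b • s) ≤ G.dist x (b • x) + G.dist (b • x) (b • s) := hc.dist_triangle
      rw [dsm hc ha] at h1
      have h2 := disp hc ha hcomm hi hz hzx hx b
      have h3 : G.dist x s ≤ (C + 1) * (a₁ + a₂) * K + R * K := by
        rw [hS₀] at hs
        simp only [Finset.mem_union] at hs
        have e1 : (C + 1) * (a₁ + a₂) * K = (C + 1) * (a₁ * K) + (C + 1) * (a₂ * K) := by ring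
        have e2 : R * 1 ≤ R * K := Nat.mul_le_mul_left _ hK
        rcases hs with (hs | hs) | hs
        · have := hUR s hs
          omega
        · have h4 := fil_near hc hwm.1 (hal (z ^ p) hzp).1 hWm hs
          have h5 := Nat.mul_le_mul_left (C + 1) hlenm
          omega
        · rw [Finset.mem_biUnion] at hs
          obtain ⟨b', hb', hs⟩ := hs
          have hb'' := (Finset.mem_filter.1 hb').2
          have h4 := fil_near hc (hw1 b' hb'') (hw2 b' hb'') (hW b' hb'') hs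
          have h5 := Nat.mul_le_mul_left (C + 1) (hlen b' hb'')
          omega
      have h6 : c₀ * 1 ≤ c₀ * K := Nat.mul_le_mul_left _ hK
      have h7 : ((C + 1) * (a₁ + a₂) + R + p + c₀) * K ≤ CB * K := by
        refine Nat.mul_le_mul_right _ ?_
        rw [hCB]
        omega
      have h8 : ((C + 1) * (a₁ + a₂) + R + p + c₀) * K =
          (C + 1) * (a₁ + a₂) * K + R * K + p * K + c₀ * K := by ring
      omega
    · refine final_bd hK (M := M) (r := r) ?_ hr2 hcard hCBM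
      refine hr'.trans (Nat.mul_le_mul_right _ ?_)
      rw [hM]
      omega
    · intro b
      refine hfib w hwS (b • w) (hinv b w hwS) ?_ (fun i => by rw [hwv]; exact hvu i)
      rw [hcm.eqv b w hwS, hwv, hv b]
  · push Not at hfar
    obtain ⟨i, j, hij, y, hy, y', hy', hd⟩ := hfar
    obtain ⟨g, rfl, w, hw, rfl⟩ := (hUm _ _).1 hy
    obtain ⟨g', rfl, w', hw', rfl⟩ := (hUm _ _).1 hy'
    have hh : g⁻¹ * g' ∉ B' := by
      intro h
      exact hij (QuotientGroup.eq.2 h)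
    have h1 : G.dist x ((g⁻¹ * g') • x) ≤ 2 * R + 2 * rB B r + 1 := by
      rw [← dsm hc ha g, smul_smul, mul_inv_cancel_left]
      have h2 : G.dist (g • x) (g' • x) ≤ G.dist (g • x) (g • w) + G.dist (g • w) (g' • x) :=
        hc.dist_triangle
      have h3 : G.dist (g • w) (g' • x) ≤ G.dist (g • w) (g' • w') + G.dist (g' • w') (g' • x) :=
        hc.dist_triangle
      rw [dsm hc ha] at h2
      rw [dsm hc ha g' w' x, SimpleGraph.dist_comm (u := w') (v := x)] at h3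
      have h4 := hUR w hw
      have h5 := hUR w' hw'
      omega
    refine ⟨x, ?_, p * (2 * R + 2 * rB B r + 1) + c₀, ?_, ?_⟩
    · rw [SimpleGraph.dist_self]
      omega
    · refine final_bd hK (M := M) (r := r) ?_ hr2 hcard hCBM
      have hr1' : 1 ≤ r := by omega
      have h2 : (p * (2 * R + 1) + c₀) * 1 ≤ (p * (2 * R + 1) + c₀) * r :=
        Nat.mul_le_mul_left _ hr1'
      have h3 : 2 * p * rB B r ≤ 2 * p * ((2 + 3 * q) * r) := Nat.mul_le_mul_left _ hr'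
      calc p * (2 * R + 2 * rB B r + 1) + c₀ = (p * (2 * R + 1) + c₀) * 1 + 2 * p * rB B r := by
            ring
        _ ≤ (p * (2 * R + 1) + c₀) * r + 2 * p * ((2 + 3 * q) * r) := by omega
        _ = (p * (2 * R + 1) + c₀ + 2 * p * (2 + 3 * q)) * r := by ring
        _ ≤ M * r := by
            refine Nat.mul_le_mul_right _ ?_
            rw [hM]
            omega
    · exact disp hc ha hcomm hi hh h1 hx

end MSG.F06
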